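import Mathlib
import Pool.Agent.H197R3.NotVI
import Pool.Agent.Y276.Rig.Alg
import Pool.Agent.Y276.Rig.T2
import Pool.Agent.Y276.Rig.Icc
import Pool.Agent.Y276.Rig.El
import Pool.Agent.Y276.Rig.Stm

/-!
# ICC groups with property (T) and the same group algebra which are not virtually isomorphic

There are countable groups `G`, `H` such that

* both are ICC (so both group von Neumann algebras are factors of type II one),
* both have Kazhdan's property (T),
* the complex group algebras of `G` and `H` are isomorphic by an isomorphism of complex algebras
  which preserves the involution and the canonical trace,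
* the group von Neumann algebras (the commutants of the right regular representations) are
  isomorphic, even by conjugation with a unitary operator,
* `G` and `H` are not virtually isomorphic.

The groups are the two semidirect products of the library `Pool.Agent.H197R3`, for the field with
eight elements.
-/

set_option autoImplicit false

namespace Pool.Agent.Results.MP_434e52_an.IccGroupAlgebras

open Pool.Agent Pool.Agent.Y276.Rig

/-- There are countable ICC groups `G`, `H` with property (T), not virtually isomorphic, with
isomorphic complex group algebras (as algebras with involution and trace) and isomorphic group von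
Neumann algebras. -/
theorem result :
    ∃ (G H : Type) (_ : Group G) (_ : Group H),
      Countable G ∧ Countable H ∧ IsIcc G ∧ IsIcc H ∧ PropertyT G ∧ PropertyT H ∧
      SameGroupAlgebra G H ∧ SameVN G H ∧ ¬ VirtuallyIsomorphic G H := by
  have : CharP (GaloisField 2 3) 2 := inferInstance
  have : Finite (GaloisField 2 3) := inferInstance
  have hcard : Nat.card (GaloisField 2 3) = 8 := by
    rw [GaloisField.card 2 3 (by norm_num)]; norm_num
  have : Fintype (GaloisField 2 3) := Fintype.ofFinite _
  have hk : 7 ≤ Fintype.card (GaloisField 2 3) := by
    rw [← Nat.card_eq_fintype_card, hcard]; norm_num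
  refine ⟨H197R3.Gr1 (GaloisField 2 3), H197R3.Gr2 (GaloisField 2 3), inferInstance, inferInstance,
    inferInstance, inferInstance,
    fun x hx => Y276.Rig.icc_GG hcard _ _ (fun m hm => Y276.Rig.nice_M1 hm) x hx,
    fun x hx => Y276.Rig.icc_GG hcard _ _ (fun m hm => Y276.Rig.nice_M2 hm) x hx,
    propertyT_of (H197R3.T_of_data hk (H197R3.theTData (GaloisField 2 3))),
    propertyT_of (Y276.Rig.T_Gr2 hk),
    ⟨Y276.Rig.algEq (H197R3.theTwist (H197R3.VA (GaloisField 2 3))
        (H197R3.Lam (GaloisField 2 3))), Y276.Rig.algEq_trace _, ?_⟩,
    sameVN (H197R3.theTwist (H197R3.VA (GaloisField 2 3))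
        (H197R3.Lam (GaloisField 2 3))), ?_⟩
  · intro x y hxy h
    have h1 : y = Y276.Rig.invo x := by
      apply MonoidAlgebra.ext
      ext g
      rw [hxy, Y276.Rig.invo_coeff]
    rw [h1, Y276.Rig.algEq_invo, Y276.Rig.invo_coeff]
  · rintro ⟨F, K, hFn, hKn, hF, hK, G₀, H₀, hG, hH, ⟨e⟩⟩
    exact H197R3.not_vi hcard F K hF hK G₀ H₀ hG hH e

end Pool.Agent.Results.MP_434e52_an.IccGroupAlgebras
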